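import Pool.Agent.W787.KG.Defs

/-!
# Project KG, integrals of products of functions of one coordinate
-/

set_option autoImplicit false

open MeasureTheory Set Metric Filter Topology Real

noncomputable section

namespace Pool.Agent.W701.KG.Pr

open Pool.Agent.W787.KG

theorem gen {𝕜 : Type} [RCLike 𝕜] (F0 F1 F2 : ℝ → 𝕜) (h0 : Integrable F0) (h1 : Integrable F1)
    (h2 : Integrable F2) :
    Integrable (fun ξ : E => F0 (ξ 0) * F1 (ξ 1) * F2 (ξ 2)) ∧
    ∫ ξ : E, F0 (ξ 0) * F1 (ξ 1) * F2 (ξ 2) = (∫ z, F0 z) * (∫ z, F1 z) * (∫ z, F2 z) := by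
  have hI : ∀ i : Fin 3, Integrable ((![F0, F1, F2] : Fin 3 → ℝ → 𝕜) i) := by
    intro i
    fin_cases i
    · exact h0
    · exact h1
    · exact h2
  have hA : Integrable (fun x : Fin 3 → ℝ => ∏ i, (![F0, F1, F2] : Fin 3 → ℝ → 𝕜) i (x i)) :=
    Integrable.fintype_prod hI
  have hB := integral_fintype_prod_volume_eq_prod (ι := Fin 3) (E := fun _ => ℝ)
    (![F0, F1, F2] : Fin 3 → ℝ → 𝕜)
  simp only [Fin.prod_univ_three] at hA hB
  constructor
  · rw [← (PiLp.volume_preserving_toLp (Fin 3)).integrable_comp_emb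
      (MeasurableEquiv.toLp 2 _).measurableEmbedding]
    exact hA
  · rw [← (PiLp.volume_preserving_toLp (Fin 3)).integral_comp
      (MeasurableEquiv.toLp 2 _).measurableEmbedding]
    exact hB

theorem pr : S_PR :=
  ⟨fun F0 F1 F2 h0 h1 h2 => gen F0 F1 F2 h0 h1 h2, fun F0 F1 F2 h0 h1 h2 => gen F0 F1 F2 h0 h1 h2⟩

end Pool.Agent.W701.KG.Pr
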